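import Mathlib

/-!
# A zero estimate in one variable, general exponents

`c j l` (`j ≤ D`, `l ≤ d`) are the coefficients of `∑ c j l X^(j + m l)` with gaps
`m l + D < m (l+1)`. If for `S` distinct nonzero `x s` and arbitrary nonzero weights `y s l` the
sums `∑ c j l * choose (j + m l) k * x^j * y_l` vanish for `k < N`, then
`S (N - d) ≤ (d + 1) D`.
-/

namespace Pool.Agent.AbcH1

open Polynomial Finset

/-- Entry of the generalised Wronskian. -/
noncomputable def ent (m : ℕ → ℕ) (D : ℕ) (c : ℕ → ℕ → ℚ) (q l : ℕ) : ℚ[X] :=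
  ∑ j ∈ range (D + 1), C (c j l * ((j + m l : ℕ) : ℚ) ^ q) * X ^ j

theorem coeff_ent (m : ℕ → ℕ) (D : ℕ) (c : ℕ → ℕ → ℚ) (q l j : ℕ) :
    (ent m D c q l).coeff j = if j ≤ D then c j l * ((j + m l : ℕ) : ℚ) ^ q else 0 := by
  unfold ent
  rw [finsetSum_coeff]
  simp only [coeff_C_mul_X_pow]
  by_cases h : j ≤ D
  · rw [if_pos h, Finset.sum_eq_single j]
    · simp
    · intro b _ hb
      simp [Ne.symm hb]
    · intro hj
      exact absurd (Finset.mem_range.2 (Nat.lt_succ_of_le h)) hj
  · rw [if_neg h]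
    refine Finset.sum_eq_zero ?_
    intro b hb
    rw [Finset.mem_range] at hb
    rw [if_neg]
    omega

theorem natDegree_ent_le (m : ℕ → ℕ) (D : ℕ) (c : ℕ → ℕ → ℚ) (q l : ℕ) :
    (ent m D c q l).natDegree ≤ D := by
  rw [natDegree_le_iff_coeff_eq_zero]
  intro N hN
  rw [coeff_ent, if_neg (by omega)]

theorem natDegree_ent_le' (m : ℕ → ℕ) (D : ℕ) (c : ℕ → ℕ → ℚ) (q l : ℕ) :
    (ent m D c q l).natDegree ≤ (ent m D c 0 l).natDegree := by
  rw [natDegree_le_iff_coeff_eq_zero]
  intro N hN
  have h := coeff_eq_zero_of_natDegree_lt hN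
  rw [coeff_ent] at h ⊢
  by_cases hD : N ≤ D
  · rw [if_pos hD] at h ⊢
    simp only [pow_zero, mul_one] at h
    rw [h, zero_mul]
  · rw [if_neg hD]

theorem gap_lt (m : ℕ → ℕ) (D d : ℕ) (hm : ∀ l < d, m l + D < m (l + 1)) {a b : ℕ}
    (hab : a < b) (hb : b ≤ d) : m a + D < m b := by
  induction b with
  | zero => omega
  | succ b ih =>
    rcases Nat.lt_or_ge a b with h | h
    · have h1 := ih h (by omega)
      have h2 := hm b (by omega)
      omega
    · have h3 : a = b := by omega
      subst h3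
      exact hm a (by omega)

/-- Nonvanishing of a determinant of polynomials whose columns have leading terms
forming a Vandermonde matrix. -/
theorem det_ent_ne_zero (m : ℕ → ℕ) (D d : ℕ) (hm : ∀ l < d, m l + D < m (l + 1))
    (c : ℕ → ℕ → ℚ) (k : ℕ) (e : Fin k → ℕ) (hed : ∀ i, e i ≤ d)
    (he : Function.Injective e) (hc : ∀ i, ent m D c 0 (e i) ≠ 0) :
    (Matrix.of fun (q i : Fin k) => ent m D c q (e i)).det ≠ 0 := by
  set n : Fin k → ℕ := fun i => (ent m D c 0 (e i)).natDegree with hn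
  have hnD : ∀ i, n i ≤ D := fun i => natDegree_ent_le m D c 0 (e i)
  set γ : Fin k → ℚ := fun i => c (n i) (e i) with hγ
  have hγ0 : ∀ i, γ i ≠ 0 := by
    intro i
    have h1 : (ent m D c 0 (e i)).leadingCoeff ≠ 0 := leadingCoeff_ne_zero.2 (hc i)
    unfold leadingCoeff at h1
    rw [coeff_ent, if_pos (hnD i)] at h1
    simpa using h1
  set ν : Fin k → ℚ := fun i => ((n i + m (e i) : ℕ) : ℚ) with hν
  have hνinj : Function.Injective ν := by
    intro i j hij
    have h1 : n i + m (e i) = n j + m (e j) := by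
      have : ((n i + m (e i) : ℕ) : ℚ) = ((n j + m (e j) : ℕ) : ℚ) := hij
      exact_mod_cast this
    apply he
    have hi := hnD i
    have hj := hnD j
    by_contra hne
    rcases Nat.lt_or_gt_of_ne hne with h | h
    · have h2 := gap_lt m D d hm h (hed j)
      omega
    · have h2 := gap_lt m D d hm h (hed i)
      omega
  intro hdet
  -- scaled determinant
  have h1 : (Matrix.of fun (q i : Fin k) => X ^ (D - n i) * ent m D c q (e i)).det = 0 := by
    have := Matrix.det_mul_row (fun i : Fin k => (X : ℚ[X]) ^ (D - n i))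
      (Matrix.of fun (q i : Fin k) => ent m D c q (e i))
    simp only [Matrix.of_apply] at this
    rw [this, hdet, mul_zero]
  have h2 : ((Matrix.of fun (q i : Fin k) => X ^ (D - n i) * ent m D c q (e i)).det).coeff (k * D)
      = (Matrix.of fun (q i : Fin k) => γ i * ν i ^ (q : ℕ)).det := by
    rw [Matrix.det_apply, Matrix.det_apply, finsetSum_coeff]
    refine Finset.sum_congr rfl ?_
    intro σ _
    have hcf : ∀ (q i : Fin k), (X ^ (D - n i) * ent m D c q (e i)).coeff D
        = γ i * ν i ^ (q : ℕ) := by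
      intro q i
      have hDn : n i + (D - n i) = D := by have := hnD i; omega
      have h7 : (X ^ (D - n i) * ent m D c q (e i)).coeff (n i + (D - n i))
          = (ent m D c q (e i)).coeff (n i) := by
        rw [mul_comm, coeff_mul_X_pow]
      rw [hDn] at h7
      rw [h7, coeff_ent, if_pos (hnD i)]
    have hdeg : ∀ i ∈ (Finset.univ : Finset (Fin k)),
        ((Matrix.of fun (q i : Fin k) => X ^ (D - n i) * ent m D c q (e i)) (σ i) i).natDegree
          ≤ D := by
      intro i _
      simp only [Matrix.of_apply]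
      refine (natDegree_mul_le).trans ?_
      have h3 := natDegree_ent_le' m D c (σ i) (e i)
      have h4 := hnD i
      rw [natDegree_X_pow]
      have h5 : (ent m D c (↑(σ i)) (e i)).natDegree ≤ n i := h3
      omega
    have h6 := coeff_prod_of_natDegree_le (Finset.univ : Finset (Fin k))
      (fun i => (Matrix.of fun (q i : Fin k) => X ^ (D - n i) * ent m D c q (e i)) (σ i) i)
      D hdeg
    rw [Finset.card_univ, Fintype.card_fin] at h6
    rw [Polynomial.coeff_smul, h6]
    congr 1
    refine Finset.prod_congr rfl ?_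
    intro i _
    simp only [Matrix.of_apply]
    exact hcf (σ i) i
  rw [h1, coeff_zero] at h2
  have h3 : (Matrix.of fun (q i : Fin k) => γ i * ν i ^ (q : ℕ)).det
      = (∏ i, γ i) * (Matrix.vandermonde ν).det := by
    have := Matrix.det_mul_row γ (Matrix.vandermonde ν).transpose
    rw [Matrix.det_transpose] at this
    rw [← this]
    rfl
  rw [h3] at h2
  have h4 : (∏ i, γ i) ≠ 0 := Finset.prod_ne_zero_iff.2 (fun i _ => hγ0 i)
  have h5 : (Matrix.vandermonde ν).det ≠ 0 := Matrix.det_vandermonde_ne_zero_iff.2 hνinj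
  exact (mul_ne_zero h4 h5) h2.symm

theorem natDegree_det_ent_le (m : ℕ → ℕ) (D : ℕ) (c : ℕ → ℕ → ℚ) (k : ℕ) (e : Fin k → ℕ) :
    ((Matrix.of fun (q i : Fin k) => ent m D c q (e i)).det).natDegree ≤ k * D := by
  rw [Matrix.det_apply]
  refine natDegree_sum_le_of_forall_le _ _ ?_
  intro σ _
  refine (natDegree_smul_le _ _).trans ?_
  refine (natDegree_prod_le _ _).trans ?_
  calc ∑ i : Fin k, ((Matrix.of fun (q i : Fin k) => ent m D c q (e i)) (σ i) i).natDegree
      ≤ ∑ _i : Fin k, D := Finset.sum_le_sum (fun i _ => natDegree_ent_le m D c _ _)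
    _ = k * D := by simp

/-- The Euler derivation on polynomials. -/
noncomputable def theta (f : ℚ[X]) : ℚ[X] := X * derivative f

theorem theta_dvd {x : ℚ} {N : ℕ} {f : ℚ[X]} (h : (X - C x) ^ (N + 1) ∣ f) :
    (X - C x) ^ N ∣ theta f := by
  obtain ⟨g, rfl⟩ := h
  refine ⟨X * (C ((N : ℚ) + 1) * g + (X - C x) * derivative g), ?_⟩
  unfold theta
  rw [derivative_mul, derivative_X_sub_C_pow]
  simp only [Nat.add_sub_cancel]
  push_cast
  rw [map_add, map_one, map_natCast]
  ring

theorem theta_iter_dvd {x : ℚ} {f : ℚ[X]} (q : ℕ) : ∀ N : ℕ, (X - C x) ^ (N + q) ∣ f →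
    (X - C x) ^ N ∣ theta^[q] f := by
  induction q with
  | zero => intro N h; simpa using h
  | succ q ih =>
    intro N h
    rw [Function.iterate_succ_apply']
    apply theta_dvd
    apply ih
    rw [show N + 1 + q = N + (q + 1) from by ring]
    exact h

theorem theta_iter_sum (ι : Type*) (s : Finset ι) (a : ι → ℚ) (n : ι → ℕ) (q : ℕ) :
    theta^[q] (∑ i ∈ s, C (a i) * X ^ (n i)) = ∑ i ∈ s, C (a i * ((n i : ℕ) : ℚ) ^ q) * X ^ (n i) := by
  induction q with
  | zero => simp
  | succ q ih =>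
    rw [Function.iterate_succ_apply', ih]
    unfold theta
    rw [derivative_sum, Finset.mul_sum]
    refine Finset.sum_congr rfl ?_
    intro i _
    rw [derivative_C_mul_X_pow]
    rcases Nat.eq_zero_or_pos (n i) with h | h
    · rw [h]
      simp
    · rw [show (X : ℚ[X]) * (C (a i * (n i : ℚ) ^ q * (n i : ℚ)) * X ^ (n i - 1))
        = C (a i * (n i : ℚ) ^ q * (n i : ℚ)) * (X ^ (n i - 1) * X) from by ring, ← pow_succ,
        Nat.sub_add_cancel h, pow_succ, mul_assoc]


/-- Main divisibility: the generalised Wronskian vanishes to order `N - d` at `x`. -/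
theorem dvd_det_ent (m : ℕ → ℕ) (D : ℕ) (c : ℕ → ℕ → ℚ) (d N : ℕ) (k : ℕ) (hkd : k ≤ d + 1)
    (hk0 : 0 < k) (e : Fin k → ℕ) (x : ℚ) (ρ : ℕ → ℚ) (hx : x ≠ 0) (hρ0 : ∀ i, ρ (e i) ≠ 0)
    (hF : (X - C x) ^ N ∣ ∑ i : Fin k, C (ρ (e i)) * (X ^ (m (e i)) * ent m D c 0 (e i))) :
    (X - C x) ^ (N - d) ∣ (Matrix.of fun (q i : Fin k) => ent m D c q (e i)).det := by
  set G : Matrix (Fin k) (Fin k) ℚ[X] :=
    Matrix.of fun (q i : Fin k) => X ^ (m (e i)) * ent m D c q (e i) with hG
  have hθ : ∀ (q : ℕ) (l : ℕ), theta^[q] (X ^ (m l) * ent m D c 0 l)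
      = X ^ (m l) * ent m D c q l := by
    intro q l
    have h1 : ∀ q' : ℕ, X ^ (m l) * ent m D c q' l
        = ∑ j ∈ range (D + 1), C (c j l * ((j + m l : ℕ) : ℚ) ^ q') * X ^ (j + m l) := by
      intro q'
      unfold ent
      rw [Finset.mul_sum]
      refine Finset.sum_congr rfl ?_
      intro j _
      rw [pow_add]
      ring
    rw [h1 q]
    have h2 : X ^ (m l) * ent m D c 0 l
        = ∑ j ∈ range (D + 1), C (c j l) * X ^ (j + m l) := by
      rw [h1 0]
      simp
    rw [h2]
    exact theta_iter_sum ℕ (range (D + 1)) (fun j => c j l) (fun j => j + m l) q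
  have hθadd : ∀ (q : ℕ) (s : Finset (Fin k)) (f : Fin k → ℚ[X]) (w : Fin k → ℚ),
      theta^[q] (∑ i ∈ s, C (w i) * f i) = ∑ i ∈ s, C (w i) * theta^[q] (f i) := by
    intro q s f w
    induction q with
    | zero => simp
    | succ q ih =>
      rw [Function.iterate_succ_apply', ih]
      unfold theta
      rw [derivative_sum, Finset.mul_sum]
      refine Finset.sum_congr rfl ?_
      intro i _
      rw [derivative_C_mul, Function.iterate_succ_apply']
      ring
  set w : Fin k → ℚ[X] := fun i => C (ρ (e i)) with hw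
  have hv : ∀ q : Fin k, (X - C x) ^ (N - d) ∣ (G.mulVec w) q := by
    intro q
    have h1 : (G.mulVec w) q = theta^[(q : ℕ)] (∑ i : Fin k, C (ρ (e i)) *
        (X ^ (m (e i)) * ent m D c 0 (e i))) := by
      rw [hθadd]
      unfold Matrix.mulVec dotProduct
      refine Finset.sum_congr rfl ?_
      intro i _
      rw [hθ, mul_comm]
      rfl
    rw [h1]
    have hq : (q : ℕ) ≤ d := by have := q.2; omega
    rcases le_or_gt N d with hNd | hNd
    · rw [Nat.sub_eq_zero_of_le hNd, pow_zero]
      exact one_dvd _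
    · apply theta_iter_dvd
      refine (pow_dvd_pow _ ?_).trans hF
      omega
  have hdetw : ∀ i, (X - C x) ^ (N - d) ∣ G.det * w i := by
    intro i
    have h1 : (G.adjugate * G).mulVec w = G.det • w := by
      rw [Matrix.adjugate_mul, Matrix.smul_mulVec, Matrix.one_mulVec]
    have h2 : G.det * w i = ∑ q, G.adjugate i q * (G.mulVec w) q := by
      have h3 := congrFun h1 i
      rw [← Matrix.mulVec_mulVec] at h3
      rw [show G.det * w i = (G.det • w) i from rfl, ← h3]
      rfl
    rw [h2]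
    refine Finset.dvd_sum ?_
    intro q _
    exact (hv q).mul_left _
  have hdet : (X - C x) ^ (N - d) ∣ G.det := by
    have h1 := hdetw ⟨0, hk0⟩
    have hu : IsUnit (w ⟨0, hk0⟩) := by
      rw [hw]
      exact isUnit_C.2 (hρ0 _).isUnit
    exact (hu.dvd_mul_right).1 h1
  have hfac : G.det = (∏ i, (X : ℚ[X]) ^ (m (e i))) *
      (Matrix.of fun (q i : Fin k) => ent m D c q (e i)).det := by
    have := Matrix.det_mul_row (fun i : Fin k => (X : ℚ[X]) ^ (m (e i)))
      (Matrix.of fun (q i : Fin k) => ent m D c q (e i))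
    rw [← this]
    rfl
  rw [hfac] at hdet
  refine IsCoprime.dvd_of_dvd_mul_left ?_ hdet
  refine IsCoprime.pow_left ?_
  refine IsCoprime.prod_right ?_
  intro i _
  refine IsCoprime.pow_right ?_
  refine ⟨-C x⁻¹, C x⁻¹, ?_⟩
  have : C x⁻¹ * C x = (1 : ℚ[X]) := by rw [← C_mul, inv_mul_cancel₀ hx, C_1]
  linear_combination this

/-- **Zero estimate.** -/
theorem zeroEst (m : ℕ → ℕ) (D d N S : ℕ) (hm : ∀ l < d, m l + D < m (l + 1)) (c : ℕ → ℕ → ℚ)
    (hc : ∃ j ≤ D, ∃ l ≤ d, c j l ≠ 0)
    (x : Fin S → ℚ) (y : Fin S → ℕ → ℚ) (hx : Function.Injective x) (hx0 : ∀ s, x s ≠ 0)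
    (hy0 : ∀ s, ∀ l ≤ d, y s l ≠ 0)
    (hv : ∀ s, ∀ k < N, ∑ j ∈ range (D + 1), ∑ l ∈ range (d + 1),
      c j l * ((j + m l).choose k : ℚ) * x s ^ j * y s l = 0) :
    S * (N - d) ≤ (d + 1) * D := by
  classical
  set L : Finset ℕ := (range (d + 1)).filter (fun l => ent m D c 0 l ≠ 0) with hL
  set k := L.card with hk
  have hLne : L.Nonempty := by
    obtain ⟨j, hj, l, hl, hjl⟩ := hc
    refine ⟨l, ?_⟩
    rw [hL, Finset.mem_filter, Finset.mem_range]
    refine ⟨by omega, ?_⟩
    intro h0
    have h1 : (ent m D c 0 l).coeff j = 0 := by rw [h0, coeff_zero]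
    rw [coeff_ent, if_pos hj] at h1
    simp at h1
    exact hjl h1
  have hk0 : 0 < k := Finset.card_pos.2 hLne
  have hkd : k ≤ d + 1 := by
    calc k ≤ (range (d + 1)).card := Finset.card_le_card (Finset.filter_subset _ _)
      _ = d + 1 := Finset.card_range _
  set e : Fin k → ℕ := fun i => L.orderEmbOfFin hk.symm i with he
  have heinj : Function.Injective e := (L.orderEmbOfFin hk.symm).injective
  have heL : ∀ i, e i ∈ L := fun i => L.orderEmbOfFin_mem hk.symm i
  have hec : ∀ i, ent m D c 0 (e i) ≠ 0 := fun i => (Finset.mem_filter.1 (heL i)).2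
  have hed : ∀ i, e i ≤ d := fun i => by
    have h := (Finset.mem_filter.1 (heL i)).1
    rw [Finset.mem_range] at h
    omega
  set W := (Matrix.of fun (q i : Fin k) => ent m D c q (e i)).det with hW
  have hW0 : W ≠ 0 := det_ent_ne_zero m D d hm c k e hed heinj hec
  have hWdeg : W.natDegree ≤ k * D := natDegree_det_ent_le m D c k e
  have hdvd : ∀ s : Fin S, (X - C (x s)) ^ (N - d) ∣ W := by
    intro s
    set ρ : ℕ → ℚ := fun l => y s l / x s ^ (m l) with hρ
    refine dvd_det_ent m D c d N k hkd hk0 e (x s) ρ (hx0 s)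
      (fun i => div_ne_zero (hy0 s _ (hed i)) (pow_ne_zero _ (hx0 s))) ?_
    -- rewrite the sum over `Fin k` as a sum over `range (d+1)`
    have h1 : ∑ i : Fin k, C (ρ (e i)) * (X ^ (m (e i)) * ent m D c 0 (e i))
        = ∑ l ∈ range (d + 1), C (ρ l) * (X ^ (m l) * ent m D c 0 l) := by
      have h2 : ∑ l ∈ L, C (ρ l) * (X ^ (m l) * ent m D c 0 l)
          = ∑ l ∈ range (d + 1), C (ρ l) * (X ^ (m l) * ent m D c 0 l) := by
        rw [hL, Finset.sum_filter]
        refine Finset.sum_congr rfl ?_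
        intro l _
        by_cases h : ent m D c 0 l = 0
        · simp [h]
        · simp [h]
      rw [← h2]
      have h3 : L = Finset.univ.map (L.orderEmbOfFin hk.symm).toEmbedding := by
        ext l
        simp only [Finset.mem_map, Finset.mem_univ, true_and, RelEmbedding.coe_toEmbedding]
        constructor
        · intro hl
          have := Finset.range_orderEmbOfFin L hk.symm
          have hl' : l ∈ Set.range (L.orderEmbOfFin hk.symm) := by
            rw [this]
            exact hl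
          obtain ⟨i, hi⟩ := hl'
          exact ⟨i, hi⟩
        · rintro ⟨i, rfl⟩
          exact L.orderEmbOfFin_mem hk.symm i
      conv_rhs => rw [h3]
      rw [Finset.sum_map]
      rfl
    rw [h1]
    set F : ℚ[X] := ∑ l ∈ range (d + 1), C (ρ l) * (X ^ (m l) * ent m D c 0 l) with hF
    have hF2 : F = ∑ j ∈ range (D + 1), ∑ l ∈ range (d + 1),
        C (c j l * ρ l) * X ^ (j + m l) := by
      rw [hF, Finset.sum_comm]
      refine Finset.sum_congr rfl ?_
      intro l _
      unfold ent
      rw [Finset.mul_sum, Finset.mul_sum]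
      refine Finset.sum_congr rfl ?_
      intro j _
      rw [pow_add, pow_zero, mul_one, C_mul]
      ring
    rw [X_sub_C_pow_dvd_iff]
    rw [X_pow_dvd_iff]
    intro q hq
    rw [← taylor_apply, taylor_coeff]
    rw [hF2]
    simp only [map_sum, eval_finsetSum]
    have hv' := hv s q hq
    have hxs := hx0 s
    have h4 : ∀ j l : ℕ, (eval (x s)) ((hasseDeriv q) (C (c j l * ρ l) * X ^ (j + m l)))
        = (x s ^ q)⁻¹ * (c j l * ((j + m l).choose q : ℚ) * x s ^ j * y s l) := by
      intro j l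
      rw [C_mul_X_pow_eq_monomial, hasseDeriv_monomial, eval_monomial]
      rcases lt_or_ge (j + m l) q with hlt | hge
      · rw [Nat.choose_eq_zero_of_lt hlt]
        simp
      · have h5 : x s ^ (j + m l - q) = x s ^ (j + m l) * (x s ^ q)⁻¹ := by
          rw [eq_mul_inv_iff_mul_eq₀ (pow_ne_zero _ hxs), ← pow_add, Nat.sub_add_cancel hge]
        rw [h5, hρ, pow_add]
        have h6 : x s ^ (m l) ≠ 0 := pow_ne_zero _ hxs
        field_simp
    simp only [h4]
    simp only [← Finset.mul_sum]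
    rw [hv', mul_zero]
  have hprod : ∏ s : Fin S, (X - C (x s)) ^ (N - d) ∣ W := by
    refine Finset.prod_dvd_of_coprime ?_ (fun s _ => hdvd s)
    intro s _ t _ hst
    refine IsCoprime.pow ?_
    exact isCoprime_X_sub_C_of_isUnit_sub (sub_ne_zero.2 (fun h => hst (hx h))).isUnit
  have hdeg := natDegree_le_of_dvd hprod hW0
  rw [natDegree_prod _ _ (fun s _ => pow_ne_zero _ (X_sub_C_ne_zero _))] at hdeg
  simp only [natDegree_pow, natDegree_X_sub_C, mul_one, Finset.sum_const, Finset.card_univ,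
    Fintype.card_fin, smul_eq_mul] at hdeg
  calc S * (N - d) ≤ W.natDegree := hdeg
    _ ≤ k * D := hWdeg
    _ ≤ (d + 1) * D := Nat.mul_le_mul_right _ hkd

end Pool.Agent.AbcH1
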