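import Mathlib
import Pool.Agent.Lib.AbcH1.ZeroEst1

/-!
# The transcendental core, general exponents

Auxiliary polynomial (Siegel), `M`-adic smallness, size, zero estimate: one unit `β = B2 / B1`
close to `1` modulo `M0`, and numbers `a l / V` congruent to `β ^ (m l)` modulo `M`.
-/

namespace Pool.Agent.AbcH1

open Polynomial Finset

attribute [local instance] Matrix.seminormedAddCommGroup Matrix.normedAddCommGroup

theorem m_mono (m : ℕ → ℕ) (D d : ℕ) (hm : ∀ l < d, m l + D < m (l + 1)) {a b : ℕ}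
    (hab : a ≤ b) (hb : b ≤ d) : m a ≤ m b := by
  rcases Nat.lt_or_ge a b with h | h
  · have := gap_lt m D d hm h hb
    omega
  · have h3 : a = b := by omega
    subst h3
    exact le_refl _

/-- Siegel's lemma for the auxiliary polynomial `∑ c j l X^(j + m l)`. -/
theorem siegel (m : ℕ → ℕ) (D d N E : ℕ) (hN : 0 < N) (hmE : ∀ l ≤ d, m l + D ≤ E)
    (h : 2 * (2 * N) ≤ (D + 1) * (d + 1)) :
    ∃ c : ℕ → ℕ → ℤ, (∃ j ≤ D, ∃ l ≤ d, c j l ≠ 0) ∧
      (∀ j l, |c j l| ≤ (((D + 1) * (d + 1) * 2 ^ E : ℕ) : ℤ)) ∧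
      (∀ k < 2 * N, ∑ j ∈ range (D + 1), ∑ l ∈ range (d + 1),
        c j l * ((j + m l).choose k : ℤ) = 0) := by
  classical
  let A : Matrix (Fin (2 * N)) (Fin (D + 1) × Fin (d + 1)) ℤ :=
    Matrix.of fun k jl => (((jl.1 : ℕ) + m (jl.2 : ℕ)).choose k : ℤ)
  have hcard : Fintype.card (Fin (D + 1) × Fin (d + 1)) = (D + 1) * (d + 1) := by simp
  have hcard2 : Fintype.card (Fin (2 * N)) = 2 * N := by simp
  obtain ⟨t, ht0, htA, htn⟩ := Int.Matrix.exists_ne_zero_int_vec_norm_le A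
    (by rw [hcard, hcard2]; omega) (by rw [hcard2]; omega)
  have hAn : ‖A‖ ≤ (2 : ℝ) ^ E := by
    rw [Matrix.norm_le_iff (by positivity)]
    intro k jl
    have h1 : ((jl.1 : ℕ) + m (jl.2 : ℕ)).choose k ≤ 2 ^ E := by
      refine (Nat.choose_le_two_pow _ _).trans (Nat.pow_le_pow_right (by norm_num) ?_)
      have h2 := jl.1.2
      have h3 := hmE (jl.2 : ℕ) (by have := jl.2.2; omega)
      omega
    have h4 : ‖A k jl‖ = ((((jl.1 : ℕ) + m (jl.2 : ℕ)).choose k : ℕ) : ℝ) := by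
      simp [A]
    rw [h4]
    exact_mod_cast h1
  have hmax : max 1 ‖A‖ ≤ (2 : ℝ) ^ E :=
    max_le (one_le_pow₀ (by norm_num)) hAn
  rw [hcard, hcard2] at htn
  have hbase : (1 : ℝ) ≤ (((D + 1) * (d + 1) : ℕ) : ℝ) * max 1 ‖A‖ := by
    have h1 : (1 : ℝ) ≤ (((D + 1) * (d + 1) : ℕ) : ℝ) := by
      exact_mod_cast Nat.succ_le_of_lt (by positivity)
    have h2 : (1 : ℝ) ≤ max 1 ‖A‖ := le_max_left _ _
    nlinarith
  have hexp : (((2 * N : ℕ) : ℝ)) / ((((D + 1) * (d + 1) : ℕ) : ℝ) - ((2 * N : ℕ) : ℝ)) ≤ 1 := by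
    have h1 : (2 : ℝ) * ((2 * N : ℕ) : ℝ) ≤ (((D + 1) * (d + 1) : ℕ) : ℝ) := by
      exact_mod_cast h
    have h2 : (0 : ℝ) < ((2 * N : ℕ) : ℝ) := by
      exact_mod_cast (by omega : 0 < 2 * N)
    rw [div_le_one (by linarith)]
    linarith
  have htn2 : ‖t‖ ≤ (((D + 1) * (d + 1) : ℕ) : ℝ) * (2 : ℝ) ^ E := by
    refine htn.trans ?_
    calc ((((D + 1) * (d + 1) : ℕ) : ℝ) * max 1 ‖A‖) ^
          ((((2 * N : ℕ) : ℝ)) / ((((D + 1) * (d + 1) : ℕ) : ℝ) - ((2 * N : ℕ) : ℝ)))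
        ≤ ((((D + 1) * (d + 1) : ℕ) : ℝ) * max 1 ‖A‖) ^ (1 : ℝ) :=
          Real.rpow_le_rpow_of_exponent_le hbase hexp
      _ = (((D + 1) * (d + 1) : ℕ) : ℝ) * max 1 ‖A‖ := Real.rpow_one _
      _ ≤ _ := by gcongr
  refine ⟨fun j l => if hj : j < D + 1 then (if hl : l < d + 1 then t (⟨j, hj⟩, ⟨l, hl⟩) else 0)
    else 0, ?_, ?_, ?_⟩
  · have : ∃ jl, t jl ≠ 0 := by
      by_contra hcon
      exact ht0 (funext fun jl => by_contra fun h => hcon ⟨jl, h⟩)
    obtain ⟨⟨⟨j, hj⟩, ⟨l, hl⟩⟩, hjl⟩ := this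
    refine ⟨j, by omega, l, by omega, ?_⟩
    simp only [hj, hl, dif_pos]
    exact hjl
  · intro j l
    by_cases hj : j < D + 1
    · by_cases hl : l < d + 1
      · simp only [hj, hl, dif_pos]
        have h1 : ‖t (⟨j, hj⟩, ⟨l, hl⟩)‖ ≤ ‖t‖ := norm_le_pi_norm t _
        have h2 := h1.trans htn2
        rw [Int.norm_eq_abs] at h2
        have h3 : ((|t (⟨j, hj⟩, ⟨l, hl⟩)| : ℤ) : ℝ)
            ≤ (((((D + 1) * (d + 1) * 2 ^ E : ℕ) : ℤ)) : ℝ) := by
          push_cast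
          push_cast at h2
          exact h2
        exact_mod_cast h3
      · simp only [hj, hl, dif_pos, dif_neg, not_false_eq_true, abs_zero]
        positivity
    · simp only [hj, dif_neg, not_false_eq_true, abs_zero]
      positivity
  · intro k hk
    have h1 : (A.mulVec t) ⟨k, hk⟩ = 0 := by rw [htA]; rfl
    rw [Finset.sum_range]
    have h2 : ∀ j : Fin (D + 1), ∑ l ∈ range (d + 1),
        (if hj : (j : ℕ) < D + 1 then (if hl : l < d + 1 then t (⟨j, hj⟩, ⟨l, hl⟩) else 0)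
          else 0) * (((j : ℕ) + m l).choose k : ℤ)
        = ∑ l : Fin (d + 1), t (j, l) * (((j : ℕ) + m (l : ℕ)).choose k : ℤ) := by
      intro j
      rw [Finset.sum_range]
      refine Finset.sum_congr rfl ?_
      intro l _
      rw [dif_pos j.2, dif_pos l.2]
    simp only [h2]
    have h3 : (A.mulVec t) ⟨k, hk⟩ = ∑ j : Fin (D + 1), ∑ l : Fin (d + 1),
        t (j, l) * (((j : ℕ) + m (l : ℕ)).choose k : ℤ) := by
      unfold Matrix.mulVec dotProduct
      rw [Fintype.sum_prod_type]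
      refine Finset.sum_congr rfl ?_
      intro j _
      refine Finset.sum_congr rfl ?_
      intro l _
      simp [A, mul_comm]
    rw [← h3, h1]

/-- The auxiliary polynomial. -/
noncomputable def aux {R : Type*} [CommRing R] (m : ℕ → ℕ) (D d : ℕ) (c : ℕ → ℕ → R) : R[X] :=
  ∑ j ∈ range (D + 1), ∑ l ∈ range (d + 1), C (c j l) * X ^ (j + m l)

theorem taylor_coeff_aux {R : Type*} [CommRing R] (m : ℕ → ℕ) (D d : ℕ) (c : ℕ → ℕ → R) (y : R)
    (k : ℕ) :
    y ^ k * (taylor y (aux m D d c)).coeff k =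
      ∑ j ∈ range (D + 1), ∑ l ∈ range (d + 1),
        c j l * ((j + m l).choose k : R) * y ^ (j + m l) := by
  rw [taylor_coeff]
  unfold aux
  simp only [map_sum, eval_finsetSum, Finset.mul_sum]
  refine Finset.sum_congr rfl ?_
  intro j _
  refine Finset.sum_congr rfl ?_
  intro l _
  rw [C_mul_X_pow_eq_monomial, hasseDeriv_monomial, eval_monomial]
  rcases lt_or_ge (j + m l) k with hlt | hge
  · rw [Nat.choose_eq_zero_of_lt hlt]
    simp
  · have h5 : y ^ (j + m l) = y ^ k * y ^ (j + m l - k) := by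
      rw [← pow_add, Nat.add_sub_cancel' hge]
    rw [h5]
    ring

theorem aux_dvd (m : ℕ → ℕ) (D d N : ℕ) (c : ℕ → ℕ → ℤ)
    (hc : ∀ k < 2 * N, ∑ j ∈ range (D + 1), ∑ l ∈ range (d + 1),
        c j l * ((j + m l).choose k : ℤ) = 0) :
    (X - C 1) ^ (2 * N) ∣ aux m D d c := by
  rw [X_sub_C_pow_dvd_iff, X_pow_dvd_iff]
  intro q hq
  rw [← taylor_apply]
  have h := taylor_coeff_aux m D d c 1 q
  rw [one_pow, one_mul] at h
  rw [h]
  simp only [one_pow, mul_one]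
  exact hc q hq

theorem aux_map {R S : Type*} [CommRing R] [CommRing S] (f : R →+* S) (m : ℕ → ℕ) (D d : ℕ)
    (c : ℕ → ℕ → R) : (aux m D d c).map f = aux m D d (fun j l => f (c j l)) := by
  unfold aux
  simp only [Polynomial.map_sum, Polynomial.map_mul, Polynomial.map_C, Polynomial.map_pow,
    Polynomial.map_X]

/-- Vanishing modulo `M`. -/
theorem vanish {R : Type*} [CommRing R] (m : ℕ → ℕ) (D d N : ℕ) (c : ℕ → ℕ → ℤ)
    (hc : ∀ k < 2 * N, ∑ j ∈ range (D + 1), ∑ l ∈ range (d + 1),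
        c j l * ((j + m l).choose k : ℤ) = 0)
    (y : R) (hy : (y - 1) ^ N = 0) (k : ℕ) (hk : k < N) :
    ∑ j ∈ range (D + 1), ∑ l ∈ range (d + 1),
        (c j l : R) * ((j + m l).choose k : R) * y ^ (j + m l) = 0 := by
  obtain ⟨G, hG⟩ := aux_dvd m D d N c hc
  have h1 := taylor_coeff_aux m D d (fun j l => ((c j l : ℤ) : R)) y k
  rw [← h1]
  have h2 : aux m D d (fun j l => ((c j l : ℤ) : R))
      = (X - C 1) ^ (2 * N) * G.map (Int.castRingHom R) := by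
    have h3 := aux_map (Int.castRingHom R) m D d c
    have h4 : (fun j l => (Int.castRingHom R) (c j l)) = (fun j l => ((c j l : ℤ) : R)) := by
      funext j l
      simp
    rw [h4] at h3
    rw [← h3, hG]
    simp
  rw [h2]
  have h5 : taylor y ((X - C (1 : R)) ^ (2 * N) * G.map (Int.castRingHom R))
      = (X + C (y - 1)) ^ (2 * N) * taylor y (G.map (Int.castRingHom R)) := by
    rw [taylor_mul, taylor_pow]
    congr 2
    rw [map_sub, taylor_X, taylor_C, C_sub]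
    ring
  rw [h5, coeff_mul]
  have h6 : ∑ x ∈ antidiagonal k, ((X + C (y - 1)) ^ (2 * N)).coeff x.1 *
      (taylor y (G.map (Int.castRingHom R))).coeff x.2 = 0 := by
    refine Finset.sum_eq_zero ?_
    intro x hx
    have hx' : x.1 + x.2 = k := Finset.HasAntidiagonal.mem_antidiagonal.1 hx
    rw [coeff_X_add_C_pow]
    have h7 : (y - 1) ^ (2 * N - x.1) = 0 := by
      have : 2 * N - x.1 = N + (N - x.1) := by omega
      rw [this, pow_add, hy, zero_mul]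
    rw [h7]
    ring
  rw [h6, mul_zero]

/-- The integer whose smallness and divisibility is used. -/
def bigI (m : ℕ → ℕ) (D d : ℕ) (c : ℕ → ℕ → ℤ) (B1 B2 : ℤ) (a : ℕ → ℤ) (s k : ℕ) : ℤ :=
  ∑ j ∈ range (D + 1), ∑ l ∈ range (d + 1), c j l * ((j + m l).choose k : ℤ) *
    (B2 ^ (s * j) * B1 ^ (s * (D - j))) * (a l) ^ s

theorem isUnit_of_isCoprime {M : ℕ} {B : ℤ} (h : IsCoprime (M : ℤ) B) :
    IsUnit ((B : ℤ) : ZMod M) := by
  obtain ⟨u, v, huv⟩ := h
  have h1 : ((u * (M : ℤ) + v * B : ℤ) : ZMod M) = ((1 : ℤ) : ZMod M) := by rw [huv]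
  push_cast at h1
  rw [ZMod.natCast_self, mul_zero, zero_add] at h1
  exact IsUnit.of_mul_eq_one_right _ h1

theorem bigI_dvd (m : ℕ → ℕ) (D d N M M0 : ℕ) (c : ℕ → ℕ → ℤ)
    (hc : ∀ k < 2 * N, ∑ j ∈ range (D + 1), ∑ l ∈ range (d + 1),
        c j l * ((j + m l).choose k : ℤ) = 0)
    (B1 B2 V : ℤ) (a : ℕ → ℤ) (hM : M ∣ M0 ^ N) (hB : (M0 : ℤ) ∣ B1 - B2)
    (hrel : ∀ l ≤ d, (M : ℤ) ∣ a l * B1 ^ (m l) - V * B2 ^ (m l))
    (hMB : IsCoprime (M : ℤ) B1) (s k : ℕ) (hk : k < N) :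
    (M : ℤ) ∣ bigI m D d c B1 B2 a s k := by
  rw [← ZMod.intCast_zmod_eq_zero_iff_dvd]
  have huB : IsUnit ((B1 : ℤ) : ZMod M) := isUnit_of_isCoprime hMB
  obtain ⟨b, hb⟩ := huB.dvd (a := ((B2 : ℤ) : ZMod M))
  -- `hb : B2 = B1 * b`
  have hab : ∀ l ≤ d, ((a l : ℤ) : ZMod M) = (V : ZMod M) * b ^ (m l) := by
    intro l hl
    have h1 : (((a l * B1 ^ (m l) - V * B2 ^ (m l) : ℤ)) : ZMod M) = 0 :=
      (ZMod.intCast_zmod_eq_zero_iff_dvd _ _).2 (hrel l hl)
    push_cast at h1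
    rw [hb, mul_pow] at h1
    have h2 : ((B1 : ℤ) : ZMod M) ^ (m l) * (((a l : ℤ) : ZMod M) - (V : ZMod M) * b ^ (m l))
        = 0 := by
      linear_combination h1
    have h3 := ((huB.pow (m l)).mul_right_eq_zero).1 h2
    exact sub_eq_zero.1 h3
  have hb1 : (b ^ s - 1) ^ N = 0 := by
    obtain ⟨q, hq⟩ := hB
    have h1 : ((B1 : ℤ) : ZMod M) * (b - 1) = -((M0 : ZMod M) * ((q : ℤ) : ZMod M)) := by
      have h2 : (((B1 - B2 : ℤ)) : ZMod M) = (((M0 : ℤ) * q : ℤ) : ZMod M) := by rw [hq]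
      push_cast at h2
      rw [hb] at h2
      linear_combination -h2
    have h3 : ((M0 : ZMod M)) ^ N = 0 := by
      have h4 : ((M0 ^ N : ℕ) : ZMod M) = 0 := (ZMod.natCast_eq_zero_iff _ _).2 hM
      push_cast at h4
      exact h4
    have h5 : (b - 1) ∣ (b ^ s - 1) := by
      have := sub_dvd_pow_sub_pow b 1 s
      rwa [one_pow] at this
    obtain ⟨w, hw⟩ := h5
    have h6 : ((B1 : ℤ) : ZMod M) ^ N * (b - 1) ^ N = 0 := by
      rw [← mul_pow, h1, neg_pow, mul_pow, h3]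
      ring
    have h7 := ((huB.pow N).mul_right_eq_zero).1 h6
    rw [hw, mul_pow, h7, zero_mul]
  have hv := vanish m D d N c hc (b ^ s) hb1 k hk
  have hI : ((bigI m D d c B1 B2 a s k : ℤ) : ZMod M)
      = ((B1 : ℤ) : ZMod M) ^ (s * D) * (V : ZMod M) ^ s *
        ∑ j ∈ range (D + 1), ∑ l ∈ range (d + 1),
          ((c j l : ℤ) : ZMod M) * ((j + m l).choose k : ZMod M) * (b ^ s) ^ (j + m l) := by
    unfold bigI
    push_cast
    rw [Finset.mul_sum]
    refine Finset.sum_congr rfl ?_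
    intro j hj
    rw [Finset.mul_sum]
    refine Finset.sum_congr rfl ?_
    intro l hl
    rw [Finset.mem_range] at hj hl
    rw [hab l (by omega), hb]
    have e1 : s * D = s * j + s * (D - j) := by
      rw [← Nat.mul_add]; congr 1; omega
    rw [e1, pow_add, mul_pow, mul_pow]
    rw [show (b ^ s) ^ (j + m l) = b ^ (s * j) * (b ^ (m l)) ^ s from by
      rw [← pow_mul, ← pow_mul, ← pow_add]; congr 1; ring]
    ring
  rw [hI, hv, mul_zero]

theorem bigI_abs_le (m : ℕ → ℕ) (D d S E : ℕ) (hmE : ∀ l ≤ d, m l + D ≤ E)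
    (c : ℕ → ℕ → ℤ) (K : ℕ)
    (hK : ∀ j l, |c j l| ≤ (K : ℤ)) (B1 B2 A : ℕ) (a : ℕ → ℕ) (hB1 : 0 < B1)
    (ha : ∀ l ≤ d, 0 < a l) (haA : ∀ l ≤ d, a l ≤ A)
    (s k : ℕ) (hs : s ≤ S) :
    |bigI m D d c B1 B2 (fun l => (a l : ℤ)) s k| ≤
      (((D + 1) * (d + 1) * (K * 2 ^ E) * (max B1 B2) ^ (S * D) * A ^ S : ℕ) : ℤ) := by
  have hBm : 1 ≤ max B1 B2 := le_max_of_le_left hB1
  have hA : 1 ≤ A := (ha 0 (Nat.zero_le _)).trans_le (haA 0 (Nat.zero_le _))
  unfold bigI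
  refine (Finset.abs_sum_le_sum_abs _ _).trans ?_
  have hterm : ∀ j ∈ range (D + 1), |∑ l ∈ range (d + 1), c j l * ((j + m l).choose k : ℤ) *
      ((B2 : ℤ) ^ (s * j) * (B1 : ℤ) ^ (s * (D - j))) * ((a l : ℤ)) ^ s|
      ≤ (((d + 1) * (K * 2 ^ E * (max B1 B2) ^ (S * D) * A ^ S) : ℕ) : ℤ) := by
    intro j hj
    rw [Finset.mem_range] at hj
    refine (Finset.abs_sum_le_sum_abs _ _).trans ?_
    have hin : ∀ l ∈ range (d + 1), |c j l * ((j + m l).choose k : ℤ) *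
        ((B2 : ℤ) ^ (s * j) * (B1 : ℤ) ^ (s * (D - j))) * ((a l : ℤ)) ^ s|
        ≤ ((K * 2 ^ E * (max B1 B2) ^ (S * D) * A ^ S : ℕ) : ℤ) := by
      intro l hl
      rw [Finset.mem_range] at hl
      rw [abs_mul, abs_mul, abs_mul]
      have h1 : |(((j + m l).choose k : ℕ) : ℤ)| ≤ ((2 ^ E : ℕ) : ℤ) := by
        rw [abs_of_nonneg (by positivity)]
        have h1' : (j + m l).choose k ≤ 2 ^ E := by
          refine (Nat.choose_le_two_pow _ _).trans (Nat.pow_le_pow_right (by norm_num) ?_)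
          have h3 := hmE l (by omega)
          omega
        exact_mod_cast h1'
      have h2 : |(B2 : ℤ) ^ (s * j) * (B1 : ℤ) ^ (s * (D - j))|
          ≤ (((max B1 B2) ^ (S * D) : ℕ) : ℤ) := by
        rw [abs_of_nonneg (by positivity)]
        have h2' : B2 ^ (s * j) * B1 ^ (s * (D - j)) ≤ (max B1 B2) ^ (S * D) := by
          calc B2 ^ (s * j) * B1 ^ (s * (D - j))
              ≤ (max B1 B2) ^ (s * j) * (max B1 B2) ^ (s * (D - j)) :=
                Nat.mul_le_mul (Nat.pow_le_pow_left (le_max_right _ _) _)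
                  (Nat.pow_le_pow_left (le_max_left _ _) _)
            _ = (max B1 B2) ^ (s * D) := by
                rw [← pow_add, ← Nat.mul_add]; congr 2; omega
            _ ≤ (max B1 B2) ^ (S * D) :=
                Nat.pow_le_pow_right hBm (Nat.mul_le_mul_right D hs)
        exact_mod_cast h2'
      have h3 : |((a l : ℕ) : ℤ) ^ s| ≤ ((A ^ S : ℕ) : ℤ) := by
        rw [abs_of_nonneg (by positivity)]
        have h3' : (a l) ^ s ≤ A ^ S := by
          calc (a l) ^ s ≤ A ^ s := Nat.pow_le_pow_left (haA l (by omega)) _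
            _ ≤ A ^ S := Nat.pow_le_pow_right hA hs
        exact_mod_cast h3'
      push_cast
      push_cast at h1 h2 h3
      have h0 := hK j l
      gcongr
    refine (Finset.sum_le_card_nsmul _ _ _ hin).trans ?_
    rw [Finset.card_range, nsmul_eq_mul]
    push_cast
    exact le_refl _
  refine (Finset.sum_le_card_nsmul _ _ _ hterm).trans ?_
  rw [Finset.card_range, nsmul_eq_mul]
  apply le_of_eq
  push_cast
  ring

/-- **The transcendental core.** -/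
theorem core1 (m a : ℕ → ℕ) (D d N S M M0 B1 B2 V E A : ℕ)
    (hB1 : 0 < B1) (hB2 : 0 < B2) (hV : 0 < V) (ha : ∀ l ≤ d, 0 < a l) (haA : ∀ l ≤ d, a l ≤ A)
    (hm : ∀ l < d, m l + D < m (l + 1)) (hmE : m d + D ≤ E)
    (hSieg : 2 * (2 * N) ≤ (D + 1) * (d + 1))
    (hM : M ∣ M0 ^ N) (hB : (M0 : ℤ) ∣ (B1 : ℤ) - B2) (hne : B1 ≠ B2)
    (hrel : ∀ l ≤ d, (M : ℤ) ∣ (a l : ℤ) * B1 ^ (m l) - V * B2 ^ (m l))
    (hMB : Nat.Coprime M B1)
    (hsize : ((D + 1) * (d + 1)) ^ 2 * 4 ^ E * (max B1 B2) ^ (S * D) * A ^ S < M)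
    (hzero : (d + 1) * D < S * (N - d)) : False := by
  have hN : 0 < N := by
    by_contra h
    have : N - d = 0 := by omega
    rw [this, mul_zero] at hzero
    omega
  have hmE' : ∀ l ≤ d, m l + D ≤ E := by
    intro l hl
    have := m_mono m D d hm hl le_rfl
    omega
  obtain ⟨c, hc0, hcK, hc⟩ := siegel m D d N E hN hmE' hSieg
  have hI0 : ∀ s ≤ S, ∀ k < N, bigI m D d c B1 B2 (fun l => (a l : ℤ)) s k = 0 := by
    intro s hs k hk
    refine Int.eq_zero_of_abs_lt_dvd (bigI_dvd m D d N M M0 c hc B1 B2 V (fun l => (a l : ℤ))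
      hM hB hrel (Nat.isCoprime_iff_coprime.2 hMB) s k hk) ?_
    refine lt_of_le_of_lt (bigI_abs_le m D d S E hmE' c _ hcK B1 B2 A a hB1 ha haA s k hs) ?_
    have h1 : (D + 1) * (d + 1) * ((D + 1) * (d + 1) * 2 ^ E * 2 ^ E) *
        (max B1 B2) ^ (S * D) * A ^ S
        = ((D + 1) * (d + 1)) ^ 2 * 4 ^ E * (max B1 B2) ^ (S * D) * A ^ S := by
      rw [show (4 : ℕ) = 2 * 2 from rfl, mul_pow 2 2]
      ring
    rw [h1]
    exact_mod_cast hsize
  set β : ℚ := (B2 : ℚ) / B1 with hβ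
  set α : ℕ → ℚ := fun l => (a l : ℚ) / V with hα
  have hB1q : (B1 : ℚ) ≠ 0 := by exact_mod_cast hB1.ne'
  have hB2q : (B2 : ℚ) ≠ 0 := by exact_mod_cast hB2.ne'
  have hVq : (V : ℚ) ≠ 0 := by exact_mod_cast hV.ne'
  have hβ0 : 0 < β := by
    rw [hβ]
    positivity
  have hβ1 : β ≠ 1 := by
    rw [hβ]
    intro h
    rw [div_eq_one_iff_eq hB1q] at h
    exact hne (by exact_mod_cast h.symm)
  have hα0 : ∀ l ≤ d, α l ≠ 0 := by
    intro l hl
    have := ha l hl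
    rw [hα]
    have h1 : ((a l : ℕ) : ℚ) ≠ 0 := by exact_mod_cast this.ne'
    exact div_ne_zero h1 hVq
  have hz := zeroEst m D d N S hm (fun j l => ((c j l : ℤ) : ℚ)) (by
      obtain ⟨j, hj, l, hl, hjl⟩ := hc0
      exact ⟨j, hj, l, hl, by exact_mod_cast hjl⟩)
    (fun s : Fin S => β ^ ((s : ℕ) + 1)) (fun s : Fin S => fun l => α l ^ ((s : ℕ) + 1))
    (by
      intro s t hst
      have h1 : β ^ ((s : ℕ) + 1) = β ^ ((t : ℕ) + 1) := hst
      have h2 := pow_right_injective₀ hβ0 hβ1 h1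
      exact Fin.ext (by omega))
    (fun s => (pow_pos hβ0 _).ne') (fun s l hl => pow_ne_zero _ (hα0 l hl))
    (by
      intro s k hk
      have h1 := hI0 ((s : ℕ) + 1) (by have := s.2; omega) k hk
      set σ := (s : ℕ) + 1 with hσ
      have h2 : ((bigI m D d c B1 B2 (fun l => (a l : ℤ)) σ k : ℤ) : ℚ) = 0 := by rw [h1]; simp
      have h3 : ((bigI m D d c B1 B2 (fun l => (a l : ℤ)) σ k : ℤ) : ℚ)
          = (B1 : ℚ) ^ (σ * D) * (V : ℚ) ^ σ *
            ∑ j ∈ range (D + 1), ∑ l ∈ range (d + 1),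
              ((c j l : ℤ) : ℚ) * ((j + m l).choose k : ℚ) * (β ^ σ) ^ j * (α l ^ σ) := by
        unfold bigI
        push_cast
        rw [Finset.mul_sum]
        refine Finset.sum_congr rfl ?_
        intro j hj
        rw [Finset.mul_sum]
        refine Finset.sum_congr rfl ?_
        intro l hl
        rw [Finset.mem_range] at hj hl
        have e1 : σ * D = σ * j + σ * (D - j) := by
          rw [← Nat.mul_add]; congr 1; omega
        rw [e1, pow_add (B1 : ℚ)]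
        have e3 : (B2 : ℚ) ^ (σ * j) = (B1 : ℚ) ^ (σ * j) * (β ^ σ) ^ j := by
          rw [← pow_mul, ← mul_pow, hβ, mul_div_cancel₀ _ hB1q]
        have e4 : (a l : ℚ) ^ σ = (V : ℚ) ^ σ * (α l ^ σ) := by
          rw [← mul_pow, hα, mul_div_cancel₀ _ hVq]
        rw [e3, e4]
        ring
      rw [h3] at h2
      have h4 : (B1 : ℚ) ^ (σ * D) * (V : ℚ) ^ σ ≠ 0 :=
        mul_ne_zero (pow_ne_zero _ hB1q) (pow_ne_zero _ hVq)
      exact (mul_eq_zero.1 h2).resolve_left h4)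
  omega

end Pool.Agent.AbcH1
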